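import Pool.Agent.T2h40.CP.Pack
import Pool.Agent.T2h40.CW6.Defs

/-!
# Contraction of dense pieces and quadruple covers

Let `π` map the vertices of a graph to those of a quotient such that the fibres are dense.  A
quadruple cover of the quotient by six even subgraphs is changed at the edges inside the fibres and
gives a cover of the graph.  The even subgraphs `5, 4, 3, 2, 1` are chosen in this order, the last
one is their sum.
-/

set_option autoImplicit false

namespace Pool.Agent.T2h40.CP

open Finset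
open Pool.Agent.Helper879.ECD (sp mem_sp exists_coeff)
open Pool.Agent.H825R2.EW (incv)
open Pool.Agent.W420.BF (bd)
open Pool.Agent.T2h40.CW6 (Cov)

/-- Every partition of `Z` into `k` classes has at least `5 (k - 1) / 2` crossing edges. -/
def Dense {V E : Type} (s t : E → V) (Z : Set V) : Prop :=
  ∀ κ : V → ℕ, 5 * ((κ '' Z).ncard - 1) ≤
    2 * {e | s e ∈ Z ∧ t e ∈ Z ∧ κ (s e) ≠ κ (t e)}.ncard

/-- the labels of an edge and the values of the five functions -/
def ok (b1 b2 b3 b4 b5 : Bool) (x1 x2 x3 x4 x5 : ZMod 2) : Bool :=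
  !(b1 && b2) && !(b1 && b3 && b4) && !(b1 && b3 && b5) && !(b1 && b4 && b5) &&
  !(b2 && b3 && b4) && !(b2 && b3 && b5) && !(b2 && b4 && b5) && !(b3 && b4 && b5) &&
  (b5 || x5 == 1) && (b4 || x4 == 1) && (b3 || x3 == 1) &&
  (b2 || x2 == (if b1 then 1 + x3 * x4 * x5 else 1)) && (b1 || x1 == 1 + x2 * x3 * x4 * x5)

theorem check : ∀ (b1 b2 b3 b4 b5 : Bool) (x1 x2 x3 x4 x5 : ZMod 2),
    ok b1 b2 b3 b4 b5 x1 x2 x3 x4 x5 = true →
    (univ.filter fun i : Fin 6 => (![x1 + x2 + x3 + x4 + x5, x1, x2, x3, x4, x5] :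
      Fin 6 → ZMod 2) i = 1).card = 4 := by
  decide +kernel

theorem check0 : ∀ x : Fin 6 → ZMod 2, (univ.filter fun i : Fin 6 => x i = 1).card = 4 →
    x 1 + x 2 + x 3 + x 4 + x 5 = x 0 := by
  decide +kernel

section

variable {V V' E : Type} [Fintype V] [Fintype V'] [Fintype E] [DecidableEq V] [DecidableEq V']
  [DecidableEq E]

/-- the edges between the fibres are replaced by loops -/
def tl (s t : E → V) (π : V → V') (e : E) : V := if π (s e) = π (t e) then t e else s e

theorem bd_eq (s t : E → V) (x : E → ZMod 2) (v : V) :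
    bd s t x v = ∑ e, x e * ((if s e = v then 1 else 0) + (if t e = v then 1 else 0)) := by
  unfold bd
  refine Finset.sum_congr rfl fun e _ => ?_
  congr 2
  · congr
  · congr

theorem two (x : ZMod 2) : x + x = 0 := by
  revert x
  decide

/-- The sum of the boundary over a fibre is the boundary in the quotient. -/
theorem fibre_sum (s t : E → V) (π : V → V') (g : E → ZMod 2) (w : V') :
    ∑ v ∈ univ.filter (fun v => π v = w), bd s t g v = bd (π ∘ s) (π ∘ t) g w := by
  rw [bd_eq]
  simp only [bd_eq s t]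
  rw [Finset.sum_comm]
  refine Finset.sum_congr rfl fun e _ => ?_
  rw [← Finset.mul_sum, Finset.sum_add_distrib, Finset.sum_ite_eq, Finset.sum_ite_eq]
  simp

theorem quot_bd (s t : E → V) (π : V → V') (g h : E → ZMod 2)
    (hgh : ∀ e, π (s e) ≠ π (t e) → g e = h e) (w : V') :
    bd (π ∘ s) (π ∘ t) g w = bd (π ∘ s) (π ∘ t) h w := by
  rw [bd_eq, bd_eq]
  refine Finset.sum_congr rfl fun e _ => ?_
  by_cases hi : π (s e) = π (t e)
  · show g e * ((if π (s e) = w then 1 else 0) + (if π (t e) = w then 1 else 0)) =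
      h e * ((if π (s e) = w then 1 else 0) + (if π (t e) = w then 1 else 0))
    rw [hi, two, mul_zero, mul_zero]
  · rw [hgh e hi]

/-- The fibres are dense. -/
theorem dense_sum (s t : E → V) (π : V → V') (hd : ∀ w, Dense s t (π ⁻¹' {w})) (κ : V → ℕ) :
    ∑ w : V', 5 * (((univ.filter (fun v => π v = w)).image κ).card - 1) ≤
      2 * (univ.filter (fun e => κ (s e) ≠ κ (tl s t π e))).card := by
  have h1 : ∀ w : V', 5 * (((univ.filter (fun v => π v = w)).image κ).card - 1) ≤
      2 * (univ.filter (fun e => π (s e) = w ∧ π (t e) = w ∧ κ (s e) ≠ κ (t e))).card := by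
    intro w
    have h2 := hd w κ
    have h3 : κ '' (π ⁻¹' {w}) = (((univ.filter (fun v => π v = w)).image κ : Finset ℕ) : Set ℕ) := by
      ext x
      simp
    have h4 : {e | s e ∈ π ⁻¹' {w} ∧ t e ∈ π ⁻¹' {w} ∧ κ (s e) ≠ κ (t e)} =
        ((univ.filter (fun e => π (s e) = w ∧ π (t e) = w ∧ κ (s e) ≠ κ (t e)) : Finset E) :
          Set E) := by
      ext e
      simp
    rw [h3, h4, Set.ncard_coe_finset, Set.ncard_coe_finset] at h2
    exact h2
  refine (Finset.sum_le_sum fun w _ => h1 w).trans ?_
  rw [← Finset.mul_sum]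
  apply Nat.mul_le_mul_left
  rw [← Finset.card_biUnion]
  · apply Finset.card_le_card
    intro e he
    rw [Finset.mem_biUnion] at he
    obtain ⟨w, _, he⟩ := he
    rw [Finset.mem_filter] at he ⊢
    refine ⟨Finset.mem_univ _, ?_⟩
    unfold tl
    rw [if_pos (he.2.1.trans he.2.2.1.symm)]
    exact he.2.2.2
  · intro w _ w' _ hww
    rw [Function.onFun, Finset.disjoint_left]
    intro e h5 h6
    rw [Finset.mem_filter] at h5 h6
    exact hww (h5.2.1.symm.trans h6.2.1)

/-- Two vertices of a fibre are connected in the fibre. -/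
theorem fibre_conn (s t : E → V) (π : V → V') (hd : ∀ w, Dense s t (π ⁻¹' {w})) (u v : V)
    (huv : π u = π v) : (Pi.single u 1 - Pi.single v 1 : V → ZMod 2) ∈
      sp (ZMod 2) (incv (ZMod 2) s (tl s t π)) univ := by
  classical
  set S := sp (ZMod 2) (incv (ZMod 2) s (tl s t π)) univ with hS
  by_contra hcon
  let κ : V → ℕ := fun x => if (Pi.single u 1 - Pi.single x 1 : V → ZMod 2) ∈ S then 0 else 1
  have h1 := dense_sum s t π hd κ
  have h2 : univ.filter (fun e => κ (s e) ≠ κ (tl s t π e)) = ∅ := by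
    rw [Finset.filter_eq_empty_iff]
    intro e _ hne
    have h3 : incv (ZMod 2) s (tl s t π) e ∈ S := by
      rw [hS]
      exact mem_sp (Finset.mem_univ e)
    unfold incv at h3
    apply hne
    show (if (Pi.single u 1 - Pi.single (s e) 1 : V → ZMod 2) ∈ S then 0 else 1) =
      (if (Pi.single u 1 - Pi.single (tl s t π e) 1 : V → ZMod 2) ∈ S then 0 else 1)
    have h4 : (Pi.single u 1 - Pi.single (s e) 1 : V → ZMod 2) ∈ S ↔
        (Pi.single u 1 - Pi.single (tl s t π e) 1 : V → ZMod 2) ∈ S := by
      constructor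
      · intro h
        have := S.add_mem h h3
        rwa [sub_add_sub_cancel] at this
      · intro h
        have := S.sub_mem h h3
        rwa [sub_sub_sub_cancel_right] at this
    by_cases h5 : (Pi.single u 1 - Pi.single (s e) 1 : V → ZMod 2) ∈ S
    · rw [if_pos h5, if_pos (h4.1 h5)]
    · rw [if_neg h5, if_neg (fun h => h5 (h4.2 h))]
  rw [h2, Finset.card_empty, mul_zero, Nat.le_zero, Finset.sum_eq_zero_iff] at h1
  have h3 := h1 (π u) (Finset.mem_univ _)
  have h4 : ({0, 1} : Finset ℕ) ⊆ (univ.filter (fun x => π x = π u)).image κ := by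
    intro x hx
    rw [Finset.mem_insert, Finset.mem_singleton] at hx
    rw [Finset.mem_image]
    rcases hx with rfl | rfl
    · refine ⟨u, by simp, ?_⟩
      show (if (Pi.single u 1 - Pi.single u 1 : V → ZMod 2) ∈ S then 0 else 1) = 0
      rw [if_pos]
      rw [sub_self]
      exact S.zero_mem
    · refine ⟨v, by simp [huv], ?_⟩
      show (if (Pi.single u 1 - Pi.single v 1 : V → ZMod 2) ∈ S then 0 else 1) = 1
      rw [if_neg hcon]
  have h5 := Finset.card_le_card h4
  rw [Finset.card_pair (by decide)] at h5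
  omega

/-- Functions with zero sum on the fibres are boundaries. -/
theorem mem_of_sum (s t : E → V) (π : V → V') (hd : ∀ w, Dense s t (π ⁻¹' {w}))
    (d : V → ZMod 2) (h0 : ∀ w, ∑ v ∈ univ.filter (fun v => π v = w), d v = 0) :
    d ∈ sp (ZMod 2) (incv (ZMod 2) s (tl s t π)) univ := by
  classical
  set S := sp (ZMod 2) (incv (ZMod 2) s (tl s t π)) univ with hS
  rcases isEmpty_or_nonempty V with hV | ⟨⟨v0⟩⟩
  · have : d = 0 := by
      funext v
      exact (hV.false v).elim
    rw [this]
    exact S.zero_mem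
  have hr : ∀ w : V', ∃ r : V, (∃ v, π v = w) → π r = w := by
    intro w
    by_cases h : ∃ v, π v = w
    · obtain ⟨v, hv⟩ := h
      exact ⟨v, fun _ => hv⟩
    · exact ⟨v0, fun h' => absurd h' h⟩
  choose r hr using hr
  have h1 : d = ∑ v, d v • (Pi.single v 1 - Pi.single (r (π v)) 1 : V → ZMod 2) := by
    have h2 : ∑ v, d v • (Pi.single (r (π v)) 1 : V → ZMod 2) = 0 := by
      rw [← Finset.sum_fiberwise univ π]
      apply Finset.sum_eq_zero
      intro w _
      have h3 : ∀ v ∈ univ.filter (fun v => π v = w),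
          d v • (Pi.single (r (π v)) 1 : V → ZMod 2) = d v • (Pi.single (r w) 1 : V → ZMod 2) := by
        intro v hv
        rw [(Finset.mem_filter.1 hv).2]
      rw [Finset.sum_congr rfl h3, ← Finset.sum_smul, h0 w, zero_smul]
    simp only [smul_sub]
    rw [Finset.sum_sub_distrib, h2, sub_zero]
    funext x
    rw [Finset.sum_apply, Finset.sum_eq_single x]
    · simp
    · intro v _ hv
      simp [Pi.single_apply, hv.symm]
    · intro h
      exact absurd (Finset.mem_univ x) h
  rw [h1]
  apply S.sum_mem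
  intro v _
  apply S.smul_mem
  exact fibre_conn s t π hd v (r (π v)) (hr (π v) ⟨v, rfl⟩).symm

/-- Routing along a connector. -/
theorem route (s t : E → V) (π : V → V') (hd : ∀ w, Dense s t (π ⁻¹' {w})) (S : Finset E)
    (hS : sp (ZMod 2) (incv (ZMod 2) s (tl s t π)) S =
      sp (ZMod 2) (incv (ZMod 2) s (tl s t π)) univ)
    (g h : E → ZMod 2) (hgh : ∀ e, π (s e) ≠ π (t e) → g e = h e)
    (hh : ∀ w, bd (π ∘ s) (π ∘ t) h w = 0) :
    ∃ y : E → ZMod 2, (∀ v, bd s t y v = 0) ∧ (∀ e, π (s e) ≠ π (t e) → y e = h e) ∧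
      ∀ e, π (s e) = π (t e) → e ∉ S → y e = g e := by
  classical
  have h1 : bd s t g ∈ sp (ZMod 2) (incv (ZMod 2) s (tl s t π)) S := by
    rw [hS]
    apply mem_of_sum s t π hd
    intro w
    rw [fibre_sum, quot_bd s t π g h hgh, hh]
  obtain ⟨c, hc⟩ := exists_coeff h1
  refine ⟨fun e => g e + (if e ∈ S then (if π (s e) = π (t e) then c e else 0) else 0),
    ?_, ?_, ?_⟩
  · intro v
    have h2 : bd s t (fun e => g e + (if e ∈ S then (if π (s e) = π (t e) then c e else 0) else 0)) v
        = bd s t g v + ∑ e ∈ S, c e • incv (ZMod 2) s (tl s t π) e v := by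
      rw [bd_eq, bd_eq, ← Finset.sum_filter_add_sum_filter_not univ (fun e => e ∈ S)
        (fun e => g e * ((if s e = v then 1 else 0) + (if t e = v then 1 else 0))),
        ← Finset.sum_filter_add_sum_filter_not univ (fun e => e ∈ S)]
      have h3 : univ.filter (fun e => e ∈ S) = S := by
        ext e
        simp
      rw [h3, add_right_comm, ← Finset.sum_add_distrib]
      congr 1
      · refine Finset.sum_congr rfl fun e he => ?_
        rw [if_pos he, add_mul]
        congr 1
        unfold incv tl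
        by_cases hi : π (s e) = π (t e)
        · rw [if_pos hi, if_pos hi]
          simp only [Pi.sub_apply, Pi.single_apply, smul_eq_mul]
          congr 1
          have h5 : ∀ x y : ZMod 2, x + y = x - y := by decide
          rw [h5]
          congr 1
          · simp only [eq_comm]
          · simp only [eq_comm]
        · rw [if_neg hi, if_neg hi, sub_self, zero_mul]
          simp
      · refine Finset.sum_congr rfl fun e he => ?_
        rw [if_neg (Finset.mem_filter.1 he).2, add_zero]
    rw [h2]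
    have h4 := congrFun hc v
    rw [Finset.sum_apply] at h4
    have h5 : ∑ e ∈ S, c e • incv (ZMod 2) s (tl s t π) e v = bd s t g v := h4
    rw [h5, two]
  · intro e he
    rw [← hgh e he]
    simp [he]
  · intro e _ heS
    simp [heS]

/-- A quadruple cover remains one if vertices are identified. -/
theorem ident (s t : E → V) (π : V → V') (c : Fin 6 → E → ZMod 2)
    (hc : Cov s t Set.univ c) : Cov (π ∘ s) (π ∘ t) Set.univ c := by
  refine ⟨hc.1, fun w _ i => ?_⟩
  rw [← fibre_sum s t π (c i) w]
  exact Finset.sum_eq_zero fun v _ => hc.2 v (Set.mem_univ v) i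

/-- **Contraction of dense pieces**: a quadruple cover of the quotient gives one of the graph. -/
theorem contract (s t : E → V) (π : V → V') (hd : ∀ w, Dense s t (π ⁻¹' {w}))
    (c : Fin 6 → E → ZMod 2) (hc : Cov (π ∘ s) (π ∘ t) Set.univ c) :
    ∃ c', Cov s t Set.univ c' := by
  obtain ⟨S, hS1, hS2, hS3⟩ := five s (tl s t π) (fun w : V' => univ.filter (fun v => π v = w))
    (by
      intro e he
      refine ⟨π (s e), by simp, ?_⟩
      unfold tl at he ⊢
      by_cases hi : π (s e) = π (t e)
      · rw [if_pos hi]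
        simp [hi]
      · rw [if_neg hi] at he
        exact absurd rfl he)
    (dense_sum s t π hd)
  have hc2 : ∀ i w, bd (π ∘ s) (π ∘ t) (c i) w = 0 := fun i w => hc.2 w (Set.mem_univ w) i
  -- level 5
  obtain ⟨y5, a5, b5, d5⟩ := route s t π hd (S 4) (hS3 4)
    (fun e => if π (s e) = π (t e) then 1 else c 5 e) (c 5) (fun e he => by simp [he]) (hc2 5)
  obtain ⟨y4, a4, b4, d4⟩ := route s t π hd (S 3) (hS3 3)
    (fun e => if π (s e) = π (t e) then 1 else c 4 e) (c 4) (fun e he => by simp [he]) (hc2 4)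
  obtain ⟨y3, a3, b3, d3⟩ := route s t π hd (S 2) (hS3 2)
    (fun e => if π (s e) = π (t e) then 1 else c 3 e) (c 3) (fun e he => by simp [he]) (hc2 3)
  obtain ⟨y2, a2, b2, d2⟩ := route s t π hd (S 1) (hS3 1)
    (fun e => if π (s e) = π (t e) then (if e ∈ S 0 then 1 + y3 e * y4 e * y5 e else 1) else c 2 e)
    (c 2) (fun e he => by simp [he]) (hc2 2)
  obtain ⟨y1, a1, b1, d1⟩ := route s t π hd (S 0) (hS3 0)
    (fun e => if π (s e) = π (t e) then 1 + y2 e * y3 e * y4 e * y5 e else c 1 e)
    (c 1) (fun e he => by simp [he]) (hc2 1)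
  refine ⟨fun i e => (![y1 e + y2 e + y3 e + y4 e + y5 e, y1 e, y2 e, y3 e, y4 e, y5 e] :
    Fin 6 → ZMod 2) i, ?_, ?_⟩
  · intro e
    by_cases hi : π (s e) = π (t e)
    · have h5 := d5 e hi
      have h4 := d4 e hi
      have h3 := d3 e hi
      have h2 := d2 e hi
      have h1 := d1 e hi
      simp only [if_pos hi] at h1 h2 h3 h4 h5
      have p1 := hS1 e
      have p := hS2 e
      apply check (decide (e ∈ S 0)) (decide (e ∈ S 1)) (decide (e ∈ S 2)) (decide (e ∈ S 3))
        (decide (e ∈ S 4))
      have q1 := p 0 2 3 (by decide) (by decide) (by decide)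
      have q2 := p 0 2 4 (by decide) (by decide) (by decide)
      have q3 := p 0 3 4 (by decide) (by decide) (by decide)
      have q4 := p 1 2 3 (by decide) (by decide) (by decide)
      have q5 := p 1 2 4 (by decide) (by decide) (by decide)
      have q6 := p 1 3 4 (by decide) (by decide) (by decide)
      have q7 := p 2 3 4 (by decide) (by decide) (by decide)
      clear p hS1 hS2 hS3 d1 d2 d3 d4 d5
      unfold ok
      by_cases e0 : e ∈ S 0 <;> by_cases e1 : e ∈ S 1 <;> by_cases e2 : e ∈ S 2 <;>
        by_cases e3 : e ∈ S 3 <;> by_cases e4 : e ∈ S 4 <;>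
        simp [e0, e1, e2, e3, e4] at p1 q1 q2 q3 q4 q5 q6 q7 h1 h2 h3 h4 h5 ⊢ <;>
        simp [*]
    · have h0 := check0 (fun i => c i e) (hc.1 e)
      refine Eq.trans ?_ (hc.1 e)
      congr 1
      apply Finset.filter_congr
      intro i _
      show (![y1 e + y2 e + y3 e + y4 e + y5 e, y1 e, y2 e, y3 e, y4 e, y5 e] :
        Fin 6 → ZMod 2) i = 1 ↔ c i e = 1
      rw [b1 e hi, b2 e hi, b3 e hi, b4 e hi, b5 e hi]
      have h1 : (![c 1 e + c 2 e + c 3 e + c 4 e + c 5 e, c 1 e, c 2 e, c 3 e, c 4 e, c 5 e] :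
          Fin 6 → ZMod 2) i = c i e := by
        fin_cases i
        · exact h0
        all_goals rfl
      rw [h1]
  · intro v _ i
    fin_cases i
    · show bd s t (fun e => y1 e + y2 e + y3 e + y4 e + y5 e) v = 0
      have h1 : bd s t (fun e => y1 e + y2 e + y3 e + y4 e + y5 e) v =
          bd s t y1 v + bd s t y2 v + bd s t y3 v + bd s t y4 v + bd s t y5 v := by
        unfold bd
        rw [← Finset.sum_add_distrib, ← Finset.sum_add_distrib, ← Finset.sum_add_distrib,
          ← Finset.sum_add_distrib]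
        refine Finset.sum_congr rfl fun e _ => ?_
        ring
      rw [h1, a1, a2, a3, a4, a5]
      rfl
    · exact a1 v
    · exact a2 v
    · exact a3 v
    · exact a4 v
    · exact a5 v

end

end Pool.Agent.T2h40.CP
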