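import Pool.Agent.T2h40.CP.Four

/-!
# Contraction of complete graphs with four vertices
-/

set_option autoImplicit false

open Finset

namespace Pool.Agent.T2h40.CP

open Pool.Agent.X24.QC (QC bd contract bd_contract_self bd_contract_of_notMem z2)

/-- the first vertex of the edge `k` of the complete graph -/
def pp : Fin 6 → Fin 4 := ![0, 0, 0, 1, 1, 2]

/-- the second vertex of the edge `k` of the complete graph -/
def qq : Fin 6 → Fin 4 := ![1, 2, 3, 2, 3, 3]

theorem pq_ne : ∀ k, pp k ≠ qq k := by decide

theorem pq_inj : ∀ k l, ((pp k = pp l ∧ qq k = qq l) ∨ (pp k = qq l ∧ qq k = pp l)) → k = l := by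
  decide

section

variable {V E : Type} [Fintype E]

open Classical in
theorem sum_ite_range (v : Fin 4 → V) (hv : Function.Injective v) (y : V) (a : ZMod 2) :
    ∑ j, (if y = v j then a else 0) = if y ∈ Set.range v then a else 0 := by
  by_cases h : y ∈ Set.range v
  · obtain ⟨j, rfl⟩ := h
    rw [if_pos ⟨j, rfl⟩, Finset.sum_eq_single j]
    · rw [if_pos rfl]
    · intro k _ hk
      rw [if_neg]
      intro h1
      exact hk (hv h1).symm
    · intro h1
      exact absurd (Finset.mem_univ j) h1
  · rw [if_neg h]
    apply Finset.sum_eq_zero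
    intro j _
    rw [if_neg]
    rintro rfl
    exact h ⟨j, rfl⟩

open Classical in
theorem bd_add {V : Type} (src dst : E → V) (g h : E → ZMod 2) (x : V) :
    bd src dst (fun e => g e + h e) x = bd src dst g x + bd src dst h x := by
  unfold bd
  rw [← Finset.sum_add_distrib]
  refine Finset.sum_congr rfl fun e _ => ?_
  by_cases h3 : src e = x <;> by_cases h4 : dst e = x <;> simp [h3, h4]
  ring

open Classical in
theorem bd_sum {V : Type} (src dst : E → V) (g : Fin 6 → E → ZMod 2) (x : V) :
    bd src dst (fun e => ∑ k, g k e) x = ∑ k, bd src dst (g k) x := by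
  unfold bd
  rw [Finset.sum_comm]
  refine Finset.sum_congr rfl fun e _ => ?_
  rw [Finset.sum_add_distrib]
  congr 1
  · by_cases h3 : src e = x <;> simp [h3]
  · by_cases h3 : dst e = x <;> simp [h3]

open Classical in
theorem bd_single {V : Type} (src dst : E → V) (e0 : E) (a : ZMod 2) (x : V) :
    bd src dst (fun e => if e0 = e then a else 0) x =
      (if src e0 = x then a else 0) + (if dst e0 = x then a else 0) := by
  unfold bd
  rw [Finset.sum_eq_single e0]
  · simp
  · intro e _ he
    simp [he.symm]
  · intro h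
    exact absurd (Finset.mem_univ e0) h

open Classical in
/-- **Contraction of a complete graph with four vertices.** -/
theorem qc_four (src dst : E → V) (v : Fin 4 → V) (hv : Function.Injective v)
    (hj : ∀ i j, i ≠ j → ∃ e, (src e = v i ∧ dst e = v j) ∨ (src e = v j ∧ dst e = v i))
    (h : QC (contract (Set.range v) (v 0) ∘ src) (contract (Set.range v) (v 0) ∘ dst)) :
    QC src dst := by
  obtain ⟨f, f1, f2⟩ := h
  have hz : v 0 ∈ Set.range v := ⟨0, rfl⟩
  have he : ∀ k : Fin 6, ∃ e, (src e = v (pp k) ∧ dst e = v (qq k)) ∨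
      (src e = v (qq k) ∧ dst e = v (pp k)) := fun k => hj _ _ (pq_ne k)
  choose e he using he
  have hinj : ∀ k l, e k = e l → k = l := by
    intro k l hkl
    have h1 := he k
    have h2 := he l
    rw [← hkl] at h2
    apply pq_inj
    rcases h1 with ⟨a, b⟩ | ⟨a, b⟩ <;> rcases h2 with ⟨c, d⟩ | ⟨c, d⟩
    · exact Or.inl ⟨hv (a.symm.trans c), hv (b.symm.trans d)⟩
    · exact Or.inr ⟨hv (a.symm.trans c), hv (b.symm.trans d)⟩
    · exact Or.inr ⟨hv (b.symm.trans d), hv (a.symm.trans c)⟩
    · exact Or.inl ⟨hv (b.symm.trans d), hv (a.symm.trans c)⟩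
  have hinc : ∀ (k : Fin 6) (a : ZMod 2) (x : V),
      (if src (e k) = x then a else 0) + (if dst (e k) = x then a else 0) =
      (if v (pp k) = x then a else 0) + (if v (qq k) = x then a else 0) := by
    intro k a x
    rcases he k with ⟨h1, h2⟩ | ⟨h1, h2⟩
    · rw [h1, h2]
    · rw [h1, h2, add_comm]
  have hs : ∀ e', ∑ i, f i e' = 0 := fun e' => w4_sum (fun i => f i e') (f2 e')
  let R : (Fin 6 → ZMod 2) → Fin 4 → ZMod 2 := fun a j =>
    ∑ k, ((if v (pp k) = v j then a k else 0) + (if v (qq k) = v j then a k else 0))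
  have hR : ∀ a j, R a j = ∑ k, ((if v (pp k) = v j then a k else 0) +
    (if v (qq k) = v j then a k else 0)) := fun _ _ => rfl
  let F : Fin 4 → Fin 6 → ZMod 2 := fun j i => bd src dst (f i) (v j) + R (fun k => f i (e k)) j
  have hF : ∀ j i, F j i = bd src dst (f i) (v j) + R (fun k => f i (e k)) j := fun _ _ => rfl
  have hA : ∀ j, ∑ i, F j i = 0 := by
    intro j
    simp only [hF, hR]
    rw [Finset.sum_add_distrib]
    have a1 : ∑ i, bd src dst (f i) (v j) = 0 := by
      unfold bd
      rw [Finset.sum_comm]
      apply Finset.sum_eq_zero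
      intro e' _
      rw [Finset.sum_add_distrib]
      have : ∀ p : Prop, ∀ [Decidable p], ∑ i, (if p then f i e' else 0) = 0 := by
        intro p _
        by_cases hp : p
        · simp only [if_pos hp]
          exact hs e'
        · simp [hp]
      rw [this, this, add_zero]
    have a2 : ∑ i, ∑ k, ((if v (pp k) = v j then f i (e k) else 0) +
        (if v (qq k) = v j then f i (e k) else 0)) = 0 := by
      rw [Finset.sum_comm]
      apply Finset.sum_eq_zero
      intro k _
      rw [Finset.sum_add_distrib]
      have : ∀ p : Prop, ∀ [Decidable p], ∑ i, (if p then f i (e k) else 0) = 0 := by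
        intro p _
        by_cases hp : p
        · simp only [if_pos hp]
          exact hs (e k)
        · simp [hp]
      rw [this, this, add_zero]
    rw [a1, a2, add_zero]
  have hS : ∀ g : E → ZMod 2, ∑ j, bd src dst g (v j) =
      ∑ e' ∈ univ.filter (fun e' => ¬ (src e' ∈ Set.range v ↔ dst e' ∈ Set.range v)), g e' := by
    intro g
    unfold bd
    rw [Finset.sum_comm, Finset.sum_filter]
    refine Finset.sum_congr rfl fun e' _ => ?_
    rw [Finset.sum_add_distrib, sum_ite_range v hv, sum_ite_range v hv]
    by_cases h1 : src e' ∈ Set.range v <;> by_cases h2 : dst e' ∈ Set.range v <;>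
      simp only [h1, h2, if_true, if_false, z2, iff_true, iff_false, not_true, not_false_iff,
        add_zero, zero_add, iff_self]
  have hb0 : ∀ i, ∑ j, bd src dst (f i) (v j) = 0 := by
    intro i
    rw [hS]
    have h1 := bd_contract_self src dst hz (f i)
    rw [f1 i (v 0)] at h1
    refine Eq.trans (Finset.sum_congr ?_ fun _ _ => rfl) h1.symm
    ext e'
    simp only [Finset.mem_filter]
  have hRv : ∀ a, R a 0 = a 0 + a 1 + a 2 ∧ R a 1 = a 0 + a 3 + a 4 ∧ R a 2 = a 1 + a 3 + a 5 ∧
      R a 3 = a 2 + a 4 + a 5 := by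
    intro a
    have n : ∀ i j : Fin 4, i ≠ j → v i ≠ v j := fun i j hij h1 => hij (hv h1)
    refine ⟨?_, ?_, ?_, ?_⟩
    · rw [hR, Fin.sum_univ_six]
      simp [pp, qq, n 1 0 (by decide), n 2 0 (by decide), n 3 0 (by decide)]
    · rw [hR, Fin.sum_univ_six]
      simp [pp, qq, n 0 1 (by decide), n 2 1 (by decide), n 3 1 (by decide)]
    · rw [hR, Fin.sum_univ_six]
      simp [pp, qq, n 0 2 (by decide), n 1 2 (by decide), n 3 2 (by decide)]
    · rw [hR, Fin.sum_univ_six]
      simp [pp, qq, n 0 3 (by decide), n 1 3 (by decide), n 2 3 (by decide)]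
  have hB : ∀ i, F 3 i = F 0 i + F 1 i + F 2 i := by
    intro i
    have h1 := hb0 i
    rw [Fin.sum_univ_four] at h1
    obtain ⟨r0, r1, r2, r3⟩ := hRv (fun k => f i (e k))
    rw [hF, hF, hF, hF, r0, r1, r2, r3]
    generalize bd src dst (f i) (v 0) = b0 at h1 ⊢
    generalize bd src dst (f i) (v 1) = b1 at h1 ⊢
    generalize bd src dst (f i) (v 2) = b2 at h1 ⊢
    generalize bd src dst (f i) (v 3) = b3 at h1 ⊢
    generalize f i (e 0) = x0
    generalize f i (e 1) = x1
    generalize f i (e 2) = x2
    generalize f i (e 3) = x3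
    generalize f i (e 4) = x4
    generalize f i (e 5) = x5
    have h2 : b3 = b0 + b1 + b2 := by
      revert h1
      clear * -
      revert b0 b1 b2 b3
      decide
    rw [h2]
    have t : ∀ x : ZMod 2, x + x = 0 := z2
    have e1 : b0 + (x0 + x1 + x2) + (b1 + (x0 + x3 + x4)) + (b2 + (x1 + x3 + x5)) =
        b0 + b1 + b2 + (x2 + x4 + x5) + (x0 + x0) + (x1 + x1) + (x3 + x3) := by ring
    rw [e1, t, t, t, add_zero, add_zero, add_zero]
  obtain ⟨x, y, z, g1, g2, g3, g4, g5, g6⟩ := k4 (F 0) (F 1) (F 2) (hA 0) (hA 1) (hA 2)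
  let u : Fin 6 → Fin 6 → ZMod 2 := ![x, y, F 0 + x + y, z, F 1 + x + z, F 2 + y + z]
  have hu : ∀ k, W4 (u k) := by
    intro k
    fin_cases k
    · exact g1
    · exact g2
    · exact g4
    · exact g3
    · exact g5
    · exact g6
  have hRu : ∀ j i, R (fun k => u k i) j = F j i := by
    intro j i
    obtain ⟨r0, r1, r2, r3⟩ := hRv (fun k => u k i)
    have t : ∀ x : ZMod 2, x + x = 0 := z2
    fin_cases j
    · show R (fun k => u k i) 0 = F 0 i
      rw [r0]
      show x i + y i + (F 0 i + x i + y i) = F 0 i
      have : x i + y i + (F 0 i + x i + y i) = F 0 i + (x i + x i) + (y i + y i) := by ring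
      rw [this, t, t, add_zero, add_zero]
    · show R (fun k => u k i) 1 = F 1 i
      rw [r1]
      show x i + z i + (F 1 i + x i + z i) = F 1 i
      have : x i + z i + (F 1 i + x i + z i) = F 1 i + (x i + x i) + (z i + z i) := by ring
      rw [this, t, t, add_zero, add_zero]
    · show R (fun k => u k i) 2 = F 2 i
      rw [r2]
      show y i + z i + (F 2 i + y i + z i) = F 2 i
      have : y i + z i + (F 2 i + y i + z i) = F 2 i + (y i + y i) + (z i + z i) := by ring
      rw [this, t, t, add_zero, add_zero]
    · show R (fun k => u k i) 3 = F 3 i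
      rw [r3, hB]
      show F 0 i + x i + y i + (F 1 i + x i + z i) + (F 2 i + y i + z i) = F 0 i + F 1 i + F 2 i
      have : F 0 i + x i + y i + (F 1 i + x i + z i) + (F 2 i + y i + z i) =
        F 0 i + F 1 i + F 2 i + (x i + x i) + (y i + y i) + (z i + z i) := by ring
      rw [this, t, t, t, add_zero, add_zero, add_zero]
  refine ⟨fun i e' => f i e' + ∑ k, (if e k = e' then u k i + f i (e k) else 0), ?_, ?_⟩
  · intro i x'
    rw [bd_add, bd_sum]
    simp only [bd_single, hinc]
    by_cases hx : x' ∈ Set.range v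
    · obtain ⟨j, rfl⟩ := hx
      have h1 : ∑ k, ((if v (pp k) = v j then u k i + f i (e k) else 0) +
          (if v (qq k) = v j then u k i + f i (e k) else 0)) =
          R (fun k => u k i) j + R (fun k => f i (e k)) j := by
        rw [hR, hR, ← Finset.sum_add_distrib]
        refine Finset.sum_congr rfl fun k _ => ?_
        by_cases h3 : v (pp k) = v j <;> by_cases h4 : v (qq k) = v j <;> simp [h3, h4]
        ring
      rw [h1, hRu, hF]
      have : bd src dst (f i) (v j) + (bd src dst (f i) (v j) + R (fun k => f i (e k)) j +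
        R (fun k => f i (e k)) j) = (bd src dst (f i) (v j) + bd src dst (f i) (v j)) +
        (R (fun k => f i (e k)) j + R (fun k => f i (e k)) j) := by ring
      rw [this, z2, z2, add_zero]
    · have h1 : ∑ k, ((if v (pp k) = x' then u k i + f i (e k) else 0) +
          (if v (qq k) = x' then u k i + f i (e k) else 0)) = 0 := by
        apply Finset.sum_eq_zero
        intro k _
        rw [if_neg (fun h3 => hx ⟨_, h3⟩), if_neg (fun h3 => hx ⟨_, h3⟩), add_zero]
      rw [h1, add_zero, ← bd_contract_of_notMem src dst hz (f i) hx]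
      exact f1 i x'
  · intro e'
    by_cases hx : ∃ l, e l = e'
    · obtain ⟨l, rfl⟩ := hx
      refine Eq.trans ?_ (hu l)
      congr 1
      apply Finset.filter_congr
      intro i _
      show f i (e l) + ∑ k, (if e k = e l then u k i + f i (e k) else 0) = 1 ↔ u l i = 1
      have h1 : ∑ k, (if e k = e l then u k i + f i (e k) else 0) = u l i + f i (e l) := by
        rw [Finset.sum_eq_single l]
        · rw [if_pos rfl]
        · intro k _ hk
          rw [if_neg]
          intro h3
          exact hk (hinj k l h3)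
        · intro h3
          exact absurd (Finset.mem_univ l) h3
      rw [h1]
      have : f i (e l) + (u l i + f i (e l)) = u l i + (f i (e l) + f i (e l)) := by ring
      rw [this, z2, add_zero]
    · refine Eq.trans ?_ (f2 e')
      congr 1
      apply Finset.filter_congr
      intro i _
      show f i e' + ∑ k, (if e k = e' then u k i + f i (e k) else 0) = 1 ↔ f i e' = 1
      have h1 : ∑ k, (if e k = e' then u k i + f i (e k) else 0) = 0 := by
        apply Finset.sum_eq_zero
        intro k _
        rw [if_neg]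
        intro h3
        exact hx ⟨k, h3⟩
      rw [h1, add_zero]

end

end Pool.Agent.T2h40.CP
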