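import Pool.Agent.T2h40.CP.K4
import Pool.Agent.X24.Quad

/-!
# Contraction of complete graphs with four vertices
-/

set_option autoImplicit false

open Finset

namespace Pool.Agent.T2h40.CP

open Pool.Agent.T2h40.CW6 (fc fc_eq bi bi_and bt bt_eq allr allr_spec)

theorem k4N (b1 b2 b3 : ℕ) (h1 : b1 < 32) (h2 : b2 < 32) (h3 : b3 < 32) :
    ∃ x y z : ℕ, gd x = true ∧ gd y = true ∧ gd z = true ∧ gd (b1 ^^^ x ^^^ y) = true ∧
      gd (b2 ^^^ x ^^^ z) = true ∧ gd (b3 ^^^ y ^^^ z) = true := by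
  have h := allr_spec all4_true b1 h1
  rw [fc_eq] at h
  have h' := allr_spec (allr_spec h b2 h2) b3 h3
  rw [fc_eq] at h'
  unfold ent at h'
  rw [fc_eq, fc_eq, fc_eq, bi_and, bi_and, bi_and, bi_and, bi_and] at h'
  exact ⟨_, _, _, h'.1, h'.2.1, h'.2.2.1, h'.2.2.2.1, h'.2.2.2.2.1, h'.2.2.2.2.2⟩

/-- a bit as an element of `Z/2` -/
def bz (n i : ℕ) : ZMod 2 := if n.testBit i = true then 1 else 0

/-- the vector with the code `n` -/
def dec (n : ℕ) : Fin 6 → ZMod 2 :=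
  ![bz n 0 + bz n 1 + bz n 2 + bz n 3 + bz n 4, bz n 0, bz n 1, bz n 2, bz n 3, bz n 4]

theorem bz_xor (a b i : ℕ) : bz (a ^^^ b) i = bz a i + bz b i := by
  unfold bz
  rw [Nat.testBit_xor]
  cases a.testBit i <;> cases b.testBit i <;> decide

theorem dec_xor (a b : ℕ) : dec (a ^^^ b) = dec a + dec b := by
  funext i
  rw [Pi.add_apply]
  unfold dec
  simp only [bz_xor]
  fin_cases i
  · show bz a 0 + bz b 0 + (bz a 1 + bz b 1) + (bz a 2 + bz b 2) + (bz a 3 + bz b 3) +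
      (bz a 4 + bz b 4) = (bz a 0 + bz a 1 + bz a 2 + bz a 3 + bz a 4) +
      (bz b 0 + bz b 1 + bz b 2 + bz b 3 + bz b 4)
    ring
  all_goals rfl

theorem gd_lt {n : ℕ} (h : gd n = true) : n < 32 := by
  by_contra hn
  unfold gd at h
  rw [bt_eq] at h
  have h1 : msk < 2 ^ n := lt_of_lt_of_le (by decide : msk < 2 ^ 32)
    (Nat.pow_le_pow_right (by decide) (by omega))
  rw [Nat.testBit_lt_two_pow h1] at h
  exact Bool.false_ne_true h

theorem gd_card : ∀ n < 32, gd n = true → (univ.filter fun i => dec n i = 1).card = 4 := by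
  decide +kernel

theorem exists_dec : ∀ f : Fin 6 → ZMod 2, ∑ i, f i = 0 → ∃ n < 32, dec n = f := by
  decide +kernel

/-- four ones -/
def W4 (f : Fin 6 → ZMod 2) : Prop := (univ.filter fun i => f i = 1).card = 4

theorem gd_w4 {n : ℕ} (h : gd n = true) : W4 (dec n) := gd_card n (gd_lt h) h

theorem k4 (f1 f2 f3 : Fin 6 → ZMod 2) (h1 : ∑ i, f1 i = 0) (h2 : ∑ i, f2 i = 0)
    (h3 : ∑ i, f3 i = 0) : ∃ x y z : Fin 6 → ZMod 2, W4 x ∧ W4 y ∧ W4 z ∧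
      W4 (f1 + x + y) ∧ W4 (f2 + x + z) ∧ W4 (f3 + y + z) := by
  obtain ⟨b1, l1, rfl⟩ := exists_dec f1 h1
  obtain ⟨b2, l2, rfl⟩ := exists_dec f2 h2
  obtain ⟨b3, l3, rfl⟩ := exists_dec f3 h3
  obtain ⟨x, y, z, g1, g2, g3, g4, g5, g6⟩ := k4N b1 b2 b3 l1 l2 l3
  refine ⟨dec x, dec y, dec z, gd_w4 g1, gd_w4 g2, gd_w4 g3, ?_, ?_, ?_⟩
  · rw [← dec_xor, ← dec_xor]
    exact gd_w4 g4
  · rw [← dec_xor, ← dec_xor]
    exact gd_w4 g5
  · rw [← dec_xor, ← dec_xor]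
    exact gd_w4 g6

theorem w4_sum : ∀ f : Fin 6 → ZMod 2, (univ.filter fun i => f i = 1).card = 4 →
    ∑ i, f i = 0 := by
  decide +kernel

end Pool.Agent.T2h40.CP
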