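import Pool.Agent.H825R2.EW.PRank

/-!
# Five connectors in a dense graph

In a graph whose partitions into `k` classes have at least `5 (k - 1) / 2` crossing edges there are
five connecting sets of edges such that each edge is in at most two of them and the first two are
disjoint.  This is the matroid union theorem (`packM`) on two copies of the edges, where the first
two of the five sets may only use the first copies.
-/

set_option autoImplicit false

namespace Pool.Agent.T2h40.CP

open Finset
open Pool.Agent.Helper879.ECD (sp Ind sp_mono mem_sp)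
open Pool.Agent.H825R2.EW (incv packM rank_part)

section

variable {W E : Type} [Fintype W] [DecidableEq W] [Fintype E] [DecidableEq E]

/-- the five configurations on two copies of the edges: the first two use only the first copies -/
def cfg (a b : E → W) (k : Fin 5) (p : E × Bool) : W → ZMod 2 :=
  if k.val < 2 ∧ p.2 = true then 0 else incv (ZMod 2) a b p.1

/-- the edges used by `R` in the configuration `k` -/
def pr (k : Fin 5) (R : Finset (E × Bool)) : Finset E :=
  univ.filter (fun e => (e, false) ∈ R ∨ (¬ k.val < 2 ∧ (e, true) ∈ R))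

theorem cfg_sp (a b : E → W) (k : Fin 5) (R : Finset (E × Bool)) :
    sp (ZMod 2) (cfg a b k) R = sp (ZMod 2) (incv (ZMod 2) a b) (pr k R) := by
  unfold sp
  apply le_antisymm
  · rw [Submodule.span_le]
    rintro _ ⟨⟨e, c⟩, hp, rfl⟩
    show cfg a b k (e, c) ∈ _
    unfold cfg
    split_ifs with h
    · exact Submodule.zero_mem _
    · apply Submodule.subset_span
      refine ⟨e, ?_, rfl⟩
      rw [Finset.mem_coe] at hp ⊢
      unfold pr
      rw [Finset.mem_filter]
      refine ⟨Finset.mem_univ _, ?_⟩
      cases c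
      · exact Or.inl hp
      · exact Or.inr ⟨fun h1 => h ⟨h1, rfl⟩, hp⟩
  · rw [Submodule.span_le]
    rintro _ ⟨e, he, rfl⟩
    rw [Finset.mem_coe] at he
    unfold pr at he
    rw [Finset.mem_filter] at he
    apply Submodule.subset_span
    rcases he.2 with h | ⟨h1, h⟩
    · refine ⟨(e, false), h, ?_⟩
      unfold cfg
      rw [if_neg]
      rintro ⟨_, h2⟩
      exact Bool.false_ne_true h2
    · refine ⟨(e, true), h, ?_⟩
      unfold cfg
      rw [if_neg]
      rintro ⟨h2, _⟩
      exact h1 h2

theorem pr_univ (k : Fin 5) : pr k (univ : Finset (E × Bool)) = univ := by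
  unfold pr
  apply Finset.filter_true_of_mem
  intro e _
  exact Or.inl (Finset.mem_univ _)

open Classical in
/-- Five connectors. -/
theorem five {ι : Type} [Fintype ι] (a b : E → W) (B : ι → Finset W)
    (hB : ∀ e, a e ≠ b e → ∃ j, a e ∈ B j ∧ b e ∈ B j)
    (hw : ∀ κ : W → ℕ, ∑ j, 5 * (((B j).image κ).card - 1) ≤
      2 * (univ.filter (fun e => κ (a e) ≠ κ (b e))).card) :
    ∃ S : Fin 5 → Finset E, (∀ e, ¬ (e ∈ S 0 ∧ e ∈ S 1)) ∧
      (∀ e, ∀ i j k : Fin 5, i ≠ j → i ≠ k → j ≠ k → ¬ (e ∈ S i ∧ e ∈ S j ∧ e ∈ S k)) ∧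
      ∀ k, sp (ZMod 2) (incv (ZMod 2) a b) (S k) = sp (ZMod 2) (incv (ZMod 2) a b) univ := by
  have hrk : ∀ S : Submodule (ZMod 2) (W → ZMod 2),
      5 * Module.finrank (ZMod 2) (sp (ZMod 2) (incv (ZMod 2) a b) univ) ≤
        5 * Module.finrank (ZMod 2) S +
          2 * (univ.filter (fun e => ¬ incv (ZMod 2) a b e ∈ S)).card := by
    intro S
    have h := rank_part (F := ZMod 2) a b B hB (fun _ => 2) 5 (fun κ => by
      refine (hw κ).trans (le_of_eq ?_)
      rw [Finset.sum_const, smul_eq_mul, mul_comm]) S
    refine h.trans (le_of_eq ?_)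
    rw [Finset.sum_const, smul_eq_mul, mul_comm (2 : ℕ)]
  have hH : ∀ R : Finset (E × Bool),
      ∑ i : Fin 5, Module.finrank (ZMod 2) (sp (ZMod 2) (cfg a b i) univ) ≤
      ∑ i : Fin 5, Module.finrank (ZMod 2) (sp (ZMod 2) (cfg a b i) R) + (univ \ R).card := by
    intro R
    have hc : ∀ (k : Fin 5) (R : Finset (E × Bool)),
        Module.finrank (ZMod 2) (sp (ZMod 2) (cfg a b k) R) =
          Module.finrank (ZMod 2) (sp (ZMod 2) (incv (ZMod 2) a b) (pr k R)) := by
      intro k R
      rw [cfg_sp]
    simp only [hc, Fin.sum_univ_five]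
    rw [pr_univ, pr_univ, pr_univ, pr_univ, pr_univ]
    have e0 : pr (1 : Fin 5) R = pr (0 : Fin 5) R := by
      unfold pr
      exact Finset.filter_congr fun e _ => by simp
    have e3 : pr (3 : Fin 5) R = pr (2 : Fin 5) R := by
      unfold pr
      exact Finset.filter_congr fun e _ => by simp
    have e4 : pr (4 : Fin 5) R = pr (2 : Fin 5) R := by
      unfold pr
      exact Finset.filter_congr fun e _ => by simp
    rw [e0, e3, e4]
    have hsub : pr (0 : Fin 5) R ⊆ pr (2 : Fin 5) R := by
      intro e he
      unfold pr at he ⊢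
      rw [Finset.mem_filter] at he ⊢
      refine ⟨he.1, ?_⟩
      rcases he.2 with h | ⟨h, _⟩
      · exact Or.inl h
      · exact absurd (by decide) h
    have h1 := hrk (sp (ZMod 2) (incv (ZMod 2) a b) (pr (0 : Fin 5) R))
    have h2 := hrk (sp (ZMod 2) (incv (ZMod 2) a b) (pr (2 : Fin 5) R))
    have h3 := Submodule.finrank_mono (sp_mono (F := ZMod 2) (x := incv (ZMod 2) a b) hsub)
    have h4 : (univ.filter (fun e => ¬ incv (ZMod 2) a b e ∈
        sp (ZMod 2) (incv (ZMod 2) a b) (pr (0 : Fin 5) R))).card +
      (univ.filter (fun e => ¬ incv (ZMod 2) a b e ∈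
        sp (ZMod 2) (incv (ZMod 2) a b) (pr (2 : Fin 5) R))).card ≤ (univ \ R).card := by
      have h5 : ((univ.filter (fun e => ¬ incv (ZMod 2) a b e ∈
          sp (ZMod 2) (incv (ZMod 2) a b) (pr (0 : Fin 5) R))).image (fun e => (e, false))) ∪
        ((univ.filter (fun e => ¬ incv (ZMod 2) a b e ∈
          sp (ZMod 2) (incv (ZMod 2) a b) (pr (2 : Fin 5) R))).image (fun e => (e, true))) ⊆
          univ \ R := by
        intro p hp
        rw [Finset.mem_union, Finset.mem_image, Finset.mem_image] at hp
        rw [Finset.mem_sdiff]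
        refine ⟨Finset.mem_univ _, ?_⟩
        rcases hp with ⟨e, he, rfl⟩ | ⟨e, he, rfl⟩
        · rw [Finset.mem_filter] at he
          intro hR
          apply he.2
          apply mem_sp
          unfold pr
          rw [Finset.mem_filter]
          exact ⟨Finset.mem_univ _, Or.inl hR⟩
        · rw [Finset.mem_filter] at he
          intro hR
          apply he.2
          apply mem_sp
          unfold pr
          rw [Finset.mem_filter]
          exact ⟨Finset.mem_univ _, Or.inr ⟨by decide, hR⟩⟩
      refine le_trans (le_of_eq ?_) (Finset.card_le_card h5)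
      rw [Finset.card_union_of_disjoint, Finset.card_image_of_injective,
        Finset.card_image_of_injective]
      · intro x y h
        exact (Prod.mk.inj h).1
      · intro x y h
        exact (Prod.mk.inj h).1
      · rw [Finset.disjoint_left]
        intro p hp hq
        rw [Finset.mem_image] at hp hq
        obtain ⟨e, _, rfl⟩ := hp
        obtain ⟨e', _, h⟩ := hq
        exact Bool.false_ne_true (Prod.mk.inj h).2.symm
    omega
  obtain ⟨I, hd, hI⟩ := packM (F := ZMod 2) (K := Fin 5) (x := cfg a b) hH
  refine ⟨fun k => pr k (I k), ?_, ?_, ?_⟩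
  · rintro e ⟨h0, h1⟩
    unfold pr at h0 h1
    rw [Finset.mem_filter] at h0 h1
    have h0' : (e, false) ∈ I 0 := by
      rcases h0.2 with h | ⟨h, _⟩
      · exact h
      · exact absurd (by decide) h
    have h1' : (e, false) ∈ I 1 := by
      rcases h1.2 with h | ⟨h, _⟩
      · exact h
      · exact absurd (by decide) h
    exact Finset.disjoint_left.1 (hd 0 1 (by decide)) h0' h1'
  · intro e i j k hij hik hjk
    have key : ∀ l : Fin 5, e ∈ pr l (I l) → ∃ c : Bool, (e, c) ∈ I l := by
      intro l hl
      unfold pr at hl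
      rw [Finset.mem_filter] at hl
      rcases hl.2 with h | ⟨_, h⟩
      · exact ⟨_, h⟩
      · exact ⟨_, h⟩
    rintro ⟨h1, h2, h3⟩
    obtain ⟨c1, h1⟩ := key i h1
    obtain ⟨c2, h2⟩ := key j h2
    obtain ⟨c3, h3⟩ := key k h3
    have n1 : c1 ≠ c2 := by
      rintro rfl
      exact Finset.disjoint_left.1 (hd i j hij) h1 h2
    have n2 : c1 ≠ c3 := by
      rintro rfl
      exact Finset.disjoint_left.1 (hd i k hik) h1 h3
    have n3 : c2 ≠ c3 := by
      rintro rfl
      exact Finset.disjoint_left.1 (hd j k hjk) h2 h3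
    revert n1 n2 n3
    cases c1 <;> cases c2 <;> cases c3 <;> simp
  · intro k
    have h := hI k
    rw [cfg_sp, cfg_sp, pr_univ] at h
    exact h

end

end Pool.Agent.T2h40.CP
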